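import Mathlib

/-!
# A string C-group with an irreducible representation of quaternionic type

Monomial matrices of degree 16 with entries fourth roots of unity are coded by `Mono`:
a permutation `σ` of `Fin 16` and exponents `f`, with `e_l ↦ I ^ (f l) e_(σ l)`.
-/

set_option autoImplicit false

open Matrix Complex

namespace QSC

/-- code of a monomial matrix: `e_l ↦ I ^ (f l) e_(σ l)` -/
@[ext] structure Mono where
  σ : Equiv.Perm (Fin 16)
  f : Fin 16 → ZMod 4

namespace Mono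

instance : Mul Mono := ⟨fun g h => ⟨g.σ * h.σ, fun l => h.f l + g.f (h.σ l)⟩⟩
instance : One Mono := ⟨⟨1, fun _ => 0⟩⟩
instance : Inv Mono := ⟨fun g => ⟨g.σ⁻¹, fun l => - g.f (g.σ⁻¹ l)⟩⟩

@[simp] lemma mul_σ (g h : Mono) : (g * h).σ = g.σ * h.σ := rfl
@[simp] lemma mul_f (g h : Mono) (l : Fin 16) : (g * h).f l = h.f l + g.f (h.σ l) := rfl
@[simp] lemma one_σ : (1 : Mono).σ = 1 := rfl
@[simp] lemma one_f (l : Fin 16) : (1 : Mono).f l = 0 := rfl
@[simp] lemma inv_σ (g : Mono) : (g⁻¹).σ = g.σ⁻¹ := rfl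
@[simp] lemma inv_f (g : Mono) (l : Fin 16) : (g⁻¹).f l = - g.f (g.σ⁻¹ l) := rfl

instance : Group Mono where
  mul_assoc a b c := by
    ext1
    · simp [mul_assoc]
    · funext l; simp [add_comm, add_left_comm]
  one_mul a := by
    ext1
    · simp
    · funext l; simp
  mul_one a := by
    ext1
    · simp
    · funext l; simp
  inv_mul_cancel a := by
    ext1
    · simp
    · funext l; simp

lemma eq_of {g h : Mono} (e : ∀ l : Fin 16, g.σ l = h.σ l ∧ g.f l = h.f l) : g = h := by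
  ext1
  · exact Equiv.ext fun l => (e l).1
  · exact funext fun l => (e l).2

/-- complex conjugation of the entries -/
def bar (g : Mono) : Mono := ⟨g.σ, fun l => - g.f l⟩

@[simp] lemma bar_σ (g : Mono) : (bar g).σ = g.σ := rfl
@[simp] lemma bar_f (g : Mono) (l : Fin 16) : (bar g).f l = - g.f l := rfl

lemma bar_mul (g h : Mono) : bar (g * h) = bar g * bar h := by
  ext1
  · rfl
  · funext l; simp [bar]; abel

lemma bar_one : bar 1 = 1 := by
  ext1
  · rfl
  · funext l; simp [bar]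

end Mono

instance : Finite Mono := by
  have : Function.Injective (fun g : Mono => (g.σ, g.f)) := by
    intro g h e
    simp only [Prod.mk.injEq] at e
    exact Mono.ext e.1 e.2
  exact Finite.of_injective _ this

/-- a power of `I` indexed by `ZMod 4` -/
noncomputable def ip (k : ZMod 4) : ℂ := I ^ k.val

lemma ip_add (k m : ZMod 4) : ip (k + m) = ip k * ip m := by
  unfold ip
  rw [← pow_add, ZMod.val_add]
  conv_rhs => rw [← Nat.mod_add_div (k.val + m.val) 4, pow_add, pow_mul, I_pow_four, one_pow, mul_one]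

lemma ip_zero : ip 0 = 1 := by simp [ip]

lemma ip_ne_zero (k : ZMod 4) : ip k ≠ 0 := by
  unfold ip; exact pow_ne_zero _ I_ne_zero

lemma ip_neg (k : ZMod 4) : ip (-k) = (starRingEnd ℂ) (ip k) := by
  have h1 : ip (-k) * ip k = 1 := by rw [← ip_add, neg_add_cancel, ip_zero]
  have h2 : (starRingEnd ℂ) (ip k) * ip k = 1 := by
    rw [mul_comm, mul_conj]
    have : Complex.normSq (ip k) = 1 := by
      unfold ip
      rw [map_pow, normSq_I, one_pow]
    rw [this]; norm_num
  exact mul_right_cancel₀ (ip_ne_zero k) (h1.trans h2.symm)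

lemma ip_injective : Function.Injective ip := by
  have h : ∀ k : ZMod 4, ip k = 1 → k = 0 := by
    intro k hk
    have hk' : k.val = 0 ∨ k.val = 1 ∨ k.val = 2 ∨ k.val = 3 := by
      have := ZMod.val_lt k; omega
    unfold ip at hk
    rcases hk' with h | h | h | h
    · exact (ZMod.val_eq_zero k).1 h
    · rw [h, pow_one] at hk
      have := congrArg Complex.im hk; simp at this
    · rw [h, I_sq] at hk
      have := congrArg Complex.re hk; norm_num at this
    · rw [h, I_pow_three] at hk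
      have := congrArg Complex.im hk; simp at this
  intro k m e
  have : ip (k - m) = 1 := by
    have h2 : ip (k - m) * ip m = ip m := by rw [← ip_add, sub_add_cancel, e]
    exact mul_right_cancel₀ (ip_ne_zero m) (by rw [h2, one_mul])
  exact sub_eq_zero.1 (h _ this)

/-- the monomial matrix of `g` -/
noncomputable def mat (g : Mono) : Matrix (Fin 16) (Fin 16) ℂ :=
  fun j l => if g.σ l = j then ip (g.f l) else 0

lemma mat_one : mat 1 = 1 := by
  funext j l
  simp [mat, Matrix.one_apply, ip_zero, eq_comm]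

lemma mat_mul (g h : Mono) : mat (g * h) = mat g * mat h := by
  funext j l
  rw [Matrix.mul_apply, Finset.sum_eq_single (h.σ l)]
  · by_cases e : g.σ (h.σ l) = j
    · simp [mat, e, ip_add, mul_comm]
    · simp [mat, e]
  · intro m _ hm
    simp [mat, hm.symm]
  · simp

lemma mat_bar (g : Mono) : mat (Mono.bar g) = (mat g).map (starRingEnd ℂ) := by
  funext j l
  by_cases e : g.σ l = j
  · simp [mat, Matrix.map_apply, e, ip_neg]
  · simp [mat, Matrix.map_apply, e]

lemma mat_mulVec (g : Mono) (v : Fin 16 → ℂ) (j : Fin 16) :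
    (mat g).mulVec v j = ip (g.f (g.σ⁻¹ j)) * v (g.σ⁻¹ j) := by
  rw [Matrix.mulVec, dotProduct, Finset.sum_eq_single (g.σ⁻¹ j)]
  · simp [mat]
  · intro m _ hm
    have : ¬ g.σ m = j := by
      intro e; apply hm; rw [← e]; simp
    simp [mat, this]
  · simp

/-- the monomial representation of `Mono` -/
noncomputable def rep : Mono →* GL (Fin 16) ℂ :=
  MonoidHom.toHomUnits
    { toFun := mat
      map_one' := mat_one
      map_mul' := mat_mul }

@[simp] lemma rep_val (g : Mono) : ((rep g : GL (Fin 16) ℂ) : Matrix (Fin 16) (Fin 16) ℂ) = mat g :=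
  rfl

/-- permutation part of `ga` -/
def gaP : Equiv.Perm (Fin 16) :=
  ⟨![2, 3, 0, 1, 6, 7, 4, 5, 10, 11, 8, 9, 14, 15, 12, 13],
   ![2, 3, 0, 1, 6, 7, 4, 5, 10, 11, 8, 9, 14, 15, 12, 13], by decide, by decide⟩
/-- the element `ga` -/
def ga : Mono := ⟨gaP, ![0, 0, 0, 0, 0, 0, 0, 0, 0, 0, 0, 0, 0, 0, 0, 0]⟩

/-- permutation part of `gb` -/
def gbP : Equiv.Perm (Fin 16) :=
  ⟨![0, 1, 10, 11, 9, 8, 12, 13, 5, 4, 2, 3, 6, 7, 14, 15],
   ![0, 1, 10, 11, 9, 8, 12, 13, 5, 4, 2, 3, 6, 7, 14, 15], by decide, by decide⟩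
/-- the element `gb` -/
def gb : Mono := ⟨gbP, ![0, 0, 0, 0, 2, 0, 3, 1, 0, 2, 0, 0, 1, 3, 0, 0]⟩

/-- permutation part of `gc` -/
def gcP : Equiv.Perm (Fin 16) :=
  ⟨![4, 5, 6, 7, 0, 1, 2, 3, 12, 13, 14, 15, 8, 9, 10, 11],
   ![4, 5, 6, 7, 0, 1, 2, 3, 12, 13, 14, 15, 8, 9, 10, 11], by decide, by decide⟩
/-- the element `gc` -/
def gc : Mono := ⟨gcP, ![0, 0, 0, 0, 0, 0, 0, 0, 0, 0, 0, 0, 0, 0, 0, 0]⟩

/-- permutation part of `gJ` -/
def gJP : Equiv.Perm (Fin 16) :=
  ⟨![1, 0, 3, 2, 5, 4, 7, 6, 9, 8, 11, 10, 13, 12, 15, 14],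
   ![1, 0, 3, 2, 5, 4, 7, 6, 9, 8, 11, 10, 13, 12, 15, 14], by decide, by decide⟩
/-- the element `gJ` -/
def gJ : Mono := ⟨gJP, ![0, 2, 0, 2, 0, 2, 0, 2, 0, 2, 0, 2, 0, 2, 0, 2]⟩

/-- the three generating involutions -/
def gen : Fin 3 → Mono := ![ga, gb, gc]

lemma ga_sq : ga * ga = 1 := Mono.eq_of (by decide)
lemma gb_sq : gb * gb = 1 := Mono.eq_of (by decide)
lemma gc_sq : gc * gc = 1 := Mono.eq_of (by decide)
lemma gac_sq : (ga * gc) * (ga * gc) = 1 := Mono.eq_of (by decide)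
lemma gJ_sq : gJ * Mono.bar gJ = ⟨1, fun _ => 2⟩ := Mono.eq_of (by decide)
lemma ga_J : ga * gJ = gJ * Mono.bar ga := Mono.eq_of (by decide)
lemma gb_J : gb * gJ = gJ * Mono.bar gb := Mono.eq_of (by decide)
lemma gc_J : gc * gJ = gJ * Mono.bar gc := Mono.eq_of (by decide)

end QSC
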