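import Pool.Agent.H334R4.QSC.Tables

/-!
Irreducibility of the representation, and the theorem.
-/

set_option autoImplicit false

open Matrix Complex

namespace QSC

/-- the group generated by the three involutions -/
def G : Subgroup Mono := Subgroup.closure (Set.range gen)

/-- evaluation of a word in the generators -/
def ev : List (Fin 3) → Mono
  | [] => 1
  | i :: w => gen i * ev w

lemma gen_mem (i : Fin 3) : gen i ∈ G := Subgroup.subset_closure ⟨i, rfl⟩

lemma ev_mem (w : List (Fin 3)) : ev w ∈ G := by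
  induction w with
  | nil => exact G.one_mem
  | cons i w ih => exact G.mul_mem (gen_mem i) ih

/-- a diagonal element -/
def dd0 : Mono := ⟨1, ![3, 1, 3, 1, 1, 3, 1, 3, 1, 3, 3, 1, 1, 3, 3, 1]⟩
lemma dd0_mem : dd0 ∈ G := by
  have : dd0 = ev [2, 1, 2, 1, 2, 0, 1, 2, 1, 2, 0, 1, 2, 1, 0] := Mono.eq_of (by decide)
  rw [this]; exact ev_mem _

/-- a diagonal element -/
def dd1 : Mono := ⟨1, ![1, 3, 1, 3, 3, 1, 3, 1, 1, 3, 3, 1, 1, 3, 3, 1]⟩
lemma dd1_mem : dd1 ∈ G := by
  have : dd1 = ev [1, 2, 1, 2, 0, 1, 2, 1, 2, 0, 1, 2, 1, 2, 0] := Mono.eq_of (by decide)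
  rw [this]; exact ev_mem _

/-- a diagonal element -/
def dd2 : Mono := ⟨1, ![1, 3, 3, 1, 3, 1, 1, 3, 1, 3, 1, 3, 3, 1, 3, 1]⟩
lemma dd2_mem : dd2 ∈ G := by
  have : dd2 = ev [2, 1, 2, 0, 1, 2, 1, 2, 0, 1, 2, 1, 2, 0, 1] := Mono.eq_of (by decide)
  rw [this]; exact ev_mem _

/-- a diagonal element -/
def dd3 : Mono := ⟨1, ![1, 3, 3, 1, 1, 3, 3, 1, 1, 3, 3, 1, 3, 1, 1, 3]⟩
lemma dd3_mem : dd3 ∈ G := by
  have : dd3 = ev [1, 0, 1, 2, 1, 0, 1, 0, 1, 0, 1, 2, 0, 1, 0, 1, 0] := Mono.eq_of (by decide)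
  rw [this]; exact ev_mem _

lemma dd_sep : ∀ l m : Fin 16, l ≠ m → dd0.f l ≠ dd0.f m ∨ dd1.f l ≠ dd1.f m ∨ dd2.f l ≠ dd2.f m ∨ dd3.f l ≠ dd3.f m := by decide

/-- a path from 0 to each index -/
def path : Fin 16 → List (Fin 3) :=
  ![[], [2, 1, 0, 1, 0], [0], [1, 0, 1, 2], [2], [1, 0, 1, 0], [2, 0], [1, 2, 1, 2], [0, 1, 0], [1, 2], [1, 0], [0, 1, 2], [1, 2, 0], [2, 1, 2], [2, 1, 0], [2, 0, 1, 2]]

lemma path_spec : ∀ m : Fin 16, (ev (path m)).σ 0 = m := by decide

lemma sep (l m : Fin 16) (h : l ≠ m) : ∃ d ∈ G, d.σ = 1 ∧ d.f l ≠ d.f m := by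
  rcases dd_sep l m h with h | h | h | h
  · exact ⟨dd0, dd0_mem, rfl, h⟩
  · exact ⟨dd1, dd1_mem, rfl, h⟩
  · exact ⟨dd2, dd2_mem, rfl, h⟩
  · exact ⟨dd3, dd3_mem, rfl, h⟩

lemma trans (l m : Fin 16) : ∃ g ∈ G, g.σ l = m := by
  refine ⟨ev (path m) * (ev (path l))⁻¹, G.mul_mem (ev_mem _) (G.inv_mem (ev_mem _)), ?_⟩
  rw [Mono.mul_σ, Mono.inv_σ, Equiv.Perm.mul_apply]
  have h : (ev (path l)).σ⁻¹ l = 0 := by
    rw [Equiv.Perm.inv_eq_iff_eq]; exact (path_spec l).symm
  rw [h, path_spec]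

lemma mulVec_single (g : Mono) (l : Fin 16) :
    (mat g).mulVec (Pi.single l 1) = ip (g.f l) • (Pi.single (g.σ l) (1 : ℂ) : Fin 16 → ℂ) := by
  funext j
  rw [mat_mulVec]
  by_cases h : g.σ⁻¹ j = l
  · have hj : j = g.σ l := by rw [← h]; simp
    subst hj
    simp
  · have hj : ¬ j = g.σ l := by rintro rfl; apply h; simp
    rw [Pi.smul_apply, Pi.single_eq_of_ne h, Pi.single_eq_of_ne hj]; simp

lemma exists_single (W : Submodule ℂ (Fin 16 → ℂ))
    (hW : ∀ g ∈ G, ∀ v ∈ W, (mat g).mulVec v ∈ W) :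
    ∀ (n : ℕ) (v : Fin 16 → ℂ), v ∈ W → v ≠ 0 →
      (Finset.univ.filter (fun l => v l ≠ 0)).card ≤ n →
      ∃ l : Fin 16, (Pi.single l (1 : ℂ) : Fin 16 → ℂ) ∈ W := by
  intro n
  induction n with
  | zero =>
    intro v _ hv0 hc
    exfalso; apply hv0
    funext l
    by_contra hl
    have : l ∈ Finset.univ.filter (fun l => v l ≠ 0) := by simpa using hl
    have := Finset.card_pos.2 ⟨l, this⟩
    omega
  | succ n ih =>
    intro v hv hv0 hc
    by_cases hs : ∃ l m : Fin 16, l ≠ m ∧ v l ≠ 0 ∧ v m ≠ 0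
    · obtain ⟨l, m, hlm, hl, hm⟩ := hs
      obtain ⟨d, hd, hσ, hf⟩ := sep l m hlm
      have hval : ∀ j, ((mat d).mulVec v - ip (d.f l) • v) j = (ip (d.f j) - ip (d.f l)) * v j := by
        intro j
        rw [Pi.sub_apply, mat_mulVec, hσ]
        simp [sub_mul]
      refine ih ((mat d).mulVec v - ip (d.f l) • v)
        (W.sub_mem (hW d hd v hv) (W.smul_mem _ hv)) ?_ ?_
      · intro h0
        have := congrFun h0 m
        rw [hval, Pi.zero_apply] at this
        rcases mul_eq_zero.1 this with h | h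
        · exact hf (ip_injective (sub_eq_zero.1 h)).symm
        · exact hm h
      · have hsub : (Finset.univ.filter
            (fun j => ((mat d).mulVec v - ip (d.f l) • v) j ≠ 0)) ⊆
            (Finset.univ.filter (fun j => v j ≠ 0)).erase l := by
          intro j hj
          simp only [Finset.mem_filter, Finset.mem_univ, true_and] at hj
          rw [hval] at hj
          rw [Finset.mem_erase, Finset.mem_filter]
          refine ⟨?_, Finset.mem_univ _, ?_⟩
          · rintro rfl; apply hj; simp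
          · intro h; apply hj; simp [h]
        have h1 := Finset.card_le_card hsub
        have h2 : ((Finset.univ.filter (fun j => v j ≠ 0)).erase l).card <
            (Finset.univ.filter (fun j => v j ≠ 0)).card :=
          Finset.card_erase_lt_of_mem (by simpa using hl)
        omega
    · push Not at hs
      obtain ⟨l, hl⟩ : ∃ l, v l ≠ 0 := by
        by_contra h
        push Not at h
        exact hv0 (funext h)
      refine ⟨l, ?_⟩
      have : (Pi.single l (1 : ℂ) : Fin 16 → ℂ) = (v l)⁻¹ • v := by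
        funext j
        by_cases hj : j = l
        · subst hj; simp [hl]
        · have : v j = 0 := hs l j (Ne.symm hj) hl
          simp [hj, this]
      rw [this]
      exact W.smul_mem _ hv

theorem irr (W : Submodule ℂ (Fin 16 → ℂ))
    (hW : ∀ g ∈ G, ∀ v ∈ W, (mat g).mulVec v ∈ W) : W = ⊥ ∨ W = ⊤ := by
  by_cases h : W = ⊥
  · exact Or.inl h
  right
  obtain ⟨v, hv, hv0⟩ := Submodule.exists_mem_ne_zero_of_ne_bot h
  obtain ⟨l, hl⟩ := exists_single W hW _ v hv hv0 le_rfl
  have hall : ∀ m : Fin 16, (Pi.single m (1 : ℂ) : Fin 16 → ℂ) ∈ W := by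
    intro m
    obtain ⟨g, hg, hgm⟩ := trans l m
    have h1 := hW g hg _ hl
    rw [mulVec_single, hgm] at h1
    have h2 := W.smul_mem (ip (g.f l))⁻¹ h1
    rwa [smul_smul, inv_mul_cancel₀ (ip_ne_zero _), one_smul] at h2
  rw [eq_top_iff, ← (Pi.basisFun ℂ (Fin 16)).span_eq, Submodule.span_le]
  rintro _ ⟨m, rfl⟩
  rw [Pi.basisFun_apply]
  exact hall m

lemma G_J {g : Mono} (hg : g ∈ G) : g * gJ = gJ * Mono.bar g := by
  refine Subgroup.closure_induction (p := fun g _ => g * gJ = gJ * Mono.bar g) ?_ ?_ ?_ ?_ hg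
  · rintro _ ⟨i, rfl⟩
    fin_cases i
    · exact ga_J
    · exact gb_J
    · exact gc_J
  · rw [Mono.bar_one, one_mul, mul_one]
  · intro x y _ _ hx hy
    rw [Mono.bar_mul, mul_assoc, hy, ← mul_assoc, hx, mul_assoc]
  · intro x _ hx
    have h1 : Mono.bar x⁻¹ = (Mono.bar x)⁻¹ := by
      rw [eq_inv_iff_mul_eq_one, ← Mono.bar_mul, inv_mul_cancel, Mono.bar_one]
    rw [h1, inv_mul_eq_iff_eq_mul, ← mul_assoc, hx, mul_inv_cancel_right]

lemma mat_J {g : Mono} (hg : g ∈ G) :
    mat g * mat gJ = mat gJ * (mat g).map (starRingEnd ℂ) := by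
  rw [← mat_bar, ← mat_mul, ← mat_mul, G_J hg]

lemma mat_inv_mul (g : Mono) : mat g⁻¹ * mat g = 1 := by
  rw [← mat_mul, inv_mul_cancel, mat_one]

lemma mat_mul_inv (g : Mono) : mat g * mat g⁻¹ = 1 := by
  rw [← mat_mul, mul_inv_cancel, mat_one]

lemma trace_im {g : Mono} (hg : g ∈ G) : (Matrix.trace (mat g)).im = 0 := by
  rw [← Complex.conj_eq_iff_im]
  have h1 : (starRingEnd ℂ) (Matrix.trace (mat g)) =
      Matrix.trace ((mat g).map (starRingEnd ℂ)) := by
    simp [Matrix.trace, map_sum]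
  have h2 : (mat g).map (starRingEnd ℂ) = mat gJ⁻¹ * (mat g * mat gJ) := by
    rw [mat_J hg, ← mul_assoc, mat_inv_mul, one_mul]
  rw [h1, h2, Matrix.trace_mul_comm, mul_assoc, mat_mul_inv, mul_one]

/-- Schur's lemma -/
lemma schur (S : Matrix (Fin 16) (Fin 16) ℂ) (hS : ∀ g ∈ G, mat g * S = S * mat g) :
    ∃ c : ℂ, S = c • (1 : Matrix (Fin 16) (Fin 16) ℂ) := by
  obtain ⟨c, hc⟩ := Module.End.exists_eigenvalue (Matrix.toLin' S)
  refine ⟨c, ?_⟩
  obtain ⟨v, hv⟩ := hc.exists_hasEigenvector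
  have hirr := irr (Module.End.eigenspace (Matrix.toLin' S) c) (by
    intro g hg w hw
    rw [Module.End.mem_eigenspace_iff, Matrix.toLin'_apply] at hw ⊢
    rw [Matrix.mulVec_mulVec, ← hS g hg, ← Matrix.mulVec_mulVec, hw, Matrix.mulVec_smul])
  have htop : Module.End.eigenspace (Matrix.toLin' S) c = ⊤ := by
    rcases hirr with h | h
    · exfalso
      have : v ∈ Module.End.eigenspace (Matrix.toLin' S) c := hv.1
      rw [h] at this
      exact hv.2 ((Submodule.mem_bot ℂ).1 this)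
    · exact h
  have hall : ∀ w : Fin 16 → ℂ, S.mulVec w = c • w := by
    intro w
    have : w ∈ Module.End.eigenspace (Matrix.toLin' S) c := by rw [htop]; trivial
    rw [Module.End.mem_eigenspace_iff, Matrix.toLin'_apply] at this
    exact this
  funext i j
  have := congrFun (hall (Pi.single j 1)) i
  rw [Matrix.mulVec_single_one] at this
  simp only [Matrix.col_apply, Pi.smul_apply, smul_eq_mul] at this
  rw [this, Matrix.smul_apply, Matrix.one_apply, smul_eq_mul, Pi.single_apply]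

theorem not_real : ¬ ∃ P : GL (Fin 16) ℂ, ∀ g : Mono, g ∈ G → ∀ i j : Fin 16,
    (((P * rep g * P⁻¹ : GL (Fin 16) ℂ) : Matrix (Fin 16) (Fin 16) ℂ) i j).im = 0 := by
  rintro ⟨P, hP⟩
  set p : Matrix (Fin 16) (Fin 16) ℂ := (P : Matrix (Fin 16) (Fin 16) ℂ) with hp
  set q : Matrix (Fin 16) (Fin 16) ℂ := ((P⁻¹ : GL (Fin 16) ℂ) : Matrix (Fin 16) (Fin 16) ℂ) with hq
  have hpq : p * q = 1 := by rw [hp, hq]; exact P.mul_inv
  have hqp : q * p = 1 := by rw [hp, hq]; exact P.inv_mul
  let cj : Matrix (Fin 16) (Fin 16) ℂ → Matrix (Fin 16) (Fin 16) ℂ :=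
    fun A => A.map (starRingEnd ℂ)
  have cmul : ∀ A B, cj (A * B) = cj A * cj B := fun A B => Matrix.map_mul
  have cone : cj 1 = 1 := Matrix.map_one _ (map_zero _) (map_one _)
  have hreal : ∀ g ∈ G, cj p * cj (mat g) * cj q = p * mat g * q := by
    intro g hg
    rw [← cmul, ← cmul]
    funext i j
    have h := hP g hg i j
    have e : ((P * rep g * P⁻¹ : GL (Fin 16) ℂ) : Matrix (Fin 16) (Fin 16) ℂ) = p * mat g * q := by
      simp [Units.val_mul, hp, hq]
    rw [e] at h
    exact Complex.conj_eq_iff_im.2 h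
  have hcqp : cj q * cj p = 1 := by rw [← cmul, hqp, cone]
  have hcpq : cj p * cj q = 1 := by rw [← cmul, hpq, cone]
  -- `K` intertwines the representation with its conjugate
  have hK : ∀ g ∈ G, mat g * (q * cj p) = (q * cj p) * cj (mat g) := by
    intro g hg
    calc mat g * (q * cj p) = (q * p) * mat g * q * cj p := by rw [hqp, one_mul, mul_assoc]
      _ = q * (p * mat g * q) * cj p := by simp only [mul_assoc]
      _ = q * (cj p * cj (mat g) * cj q) * cj p := by rw [hreal g hg]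
      _ = (q * cj p) * cj (mat g) * (cj q * cj p) := by simp only [mul_assoc]
      _ = (q * cj p) * cj (mat g) := by rw [hcqp, mul_one]
  obtain ⟨c, hc⟩ := schur (q * cj p * mat gJ⁻¹) (by
    intro g hg
    have h2 : cj (mat g) = mat gJ⁻¹ * (mat g * mat gJ) := by
      show (mat g).map (starRingEnd ℂ) = _
      rw [mat_J hg, ← mul_assoc, mat_inv_mul, one_mul]
    calc mat g * (q * cj p * mat gJ⁻¹) = (mat g * (q * cj p)) * mat gJ⁻¹ := by
          simp only [mul_assoc]
      _ = (q * cj p) * cj (mat g) * mat gJ⁻¹ := by rw [hK g hg]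
      _ = (q * cj p) * mat gJ⁻¹ * mat g * (mat gJ * mat gJ⁻¹) := by
          rw [h2]; simp only [mul_assoc]
      _ = (q * cj p * mat gJ⁻¹) * mat g := by rw [mat_mul_inv, mul_one])
  have hKc : q * cj p = c • mat gJ := by
    calc q * cj p = (q * cj p * mat gJ⁻¹) * mat gJ := by
          rw [mul_assoc, mat_inv_mul, mul_one]
      _ = c • mat gJ := by rw [hc, smul_mul_assoc, one_mul]
  have hKK : (q * cj p) * cj (q * cj p) = 1 := by
    have hcc : cj (cj p) = p := by
      funext i j; simp [cj]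
    rw [cmul, hcc]
    calc q * cj p * (cj q * p) = q * (cj p * cj q) * p := by simp only [mul_assoc]
      _ = 1 := by rw [hcpq, mul_one, hqp]
  rw [hKc] at hKK
  have hcs : cj (c • mat gJ) = (starRingEnd ℂ c) • mat (Mono.bar gJ) := by
    rw [mat_bar]; funext i j; simp [cj]
  rw [hcs, smul_mul_assoc, mul_smul_comm, ← mat_mul, gJ_sq, smul_smul, mul_conj] at hKK
  have h00 := congrFun (congrFun hKK 0) 0
  have h2 : ip 2 = -1 := by
    unfold ip
    have : (2 : ZMod 4).val = 2 := rfl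
    rw [this, I_sq]
  rw [Matrix.smul_apply, Matrix.one_apply_eq] at h00
  have hm : mat ⟨1, fun _ => 2⟩ 0 0 = -1 := by simp [mat, h2]
  rw [hm] at h00
  have h3 := congrArg Complex.re h00
  simp at h3
  have h4 := Complex.normSq_nonneg c
  linarith

/-- the elements other than the j-th generator -/
def pr : Fin 3 → Set Mono := ![{gb, gc}, {ga, gc}, {ga, gb}]

lemma image_sub (j : Fin 3) (I : Set (Fin 3)) (h : j ∉ I) : gen '' I ⊆ pr j := by
  rintro _ ⟨t, ht, rfl⟩
  have htj : t ≠ j := by rintro rfl; exact h ht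
  fin_cases j <;> fin_cases t <;> simp_all [gen, pr]

lemma gen_sq (i : Fin 3) : gen i * gen i = 1 := by
  fin_cases i
  · exact ga_sq
  · exact gb_sq
  · exact gc_sq

lemma gen_ne_one (i : Fin 3) : gen i ≠ 1 := by
  have h : ∀ i : Fin 3, (gen i).σ 2 ≠ 2 := by decide
  intro e
  apply h i
  rw [e]; rfl

lemma gen_injective : ∀ i j : Fin 3, i ≠ j → gen i ≠ gen j := by
  have h : ∀ i j : Fin 3, i ≠ j → (gen i).σ 2 ≠ (gen j).σ 2 := by decide
  intro i j hij e
  apply h i j hij
  rw [e]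

lemma key (i j : Fin 3) (hij : i ≠ j) {x : Mono} (h1 : x ∈ Subgroup.closure (pr j))
    (h2 : x ∈ Subgroup.closure (pr i)) : x = 1 ∨ ∃ k, k ≠ i ∧ k ≠ j ∧ x = gen k := by
  have e0 : pr 0 = {gb, gc} := rfl
  have e1 : pr 1 = {ga, gc} := rfl
  have e2 : pr 2 = {ga, gb} := rfl
  have k01 : ∀ {x : Mono}, x ∈ Subgroup.closure (pr 0) → x ∈ Subgroup.closure (pr 1) →
      x = 1 ∨ x = gen 2 := fun a b => inter2 a b
  have k12 : ∀ {x : Mono}, x ∈ Subgroup.closure (pr 1) → x ∈ Subgroup.closure (pr 2) →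
      x = 1 ∨ x = gen 0 := fun a b => inter0 b a
  have k02 : ∀ {x : Mono}, x ∈ Subgroup.closure (pr 0) → x ∈ Subgroup.closure (pr 2) →
      x = 1 ∨ x = gen 1 := fun a b => inter1 b a
  fin_cases i <;> fin_cases j
  · exact absurd rfl hij
  · rcases k01 h2 h1 with h | h
    · exact Or.inl h
    · exact Or.inr ⟨2, by decide, by decide, h⟩
  · rcases k02 h2 h1 with h | h
    · exact Or.inl h
    · exact Or.inr ⟨1, by decide, by decide, h⟩
  · rcases k01 h1 h2 with h | h
    · exact Or.inl h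
    · exact Or.inr ⟨2, by decide, by decide, h⟩
  · exact absurd rfl hij
  · rcases k12 h2 h1 with h | h
    · exact Or.inl h
    · exact Or.inr ⟨0, by decide, by decide, h⟩
  · rcases k02 h1 h2 with h | h
    · exact Or.inl h
    · exact Or.inr ⟨1, by decide, by decide, h⟩
  · rcases k12 h1 h2 with h | h
    · exact Or.inl h
    · exact Or.inr ⟨0, by decide, by decide, h⟩
  · exact absurd rfl hij

lemma closure_single {y x : Mono} (hy : y * y = 1) (hx : x ∈ Subgroup.closure ({y} : Set Mono)) :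
    x = 1 ∨ x = y := by
  obtain ⟨n, rfl⟩ := Subgroup.mem_closure_singleton.1 hx
  rcases Int.even_or_odd n with ⟨m, hm⟩ | ⟨m, hm⟩
  · left; rw [hm, ← two_mul, _root_.zpow_mul, zpow_two, hy, _root_.one_zpow]
  · right; rw [hm, _root_.zpow_add, _root_.zpow_mul, zpow_two, hy, _root_.one_zpow, one_mul, zpow_one]

/-- the intersection property -/
theorem inter_all (I J : Set (Fin 3)) :
    Subgroup.closure (gen '' I) ⊓ Subgroup.closure (gen '' J) =
      Subgroup.closure (gen '' (I ∩ J)) := by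
  apply le_antisymm
  · rintro x ⟨h1, h2⟩
    change x ∈ Subgroup.closure (gen '' I) at h1
    change x ∈ Subgroup.closure (gen '' J) at h2
    by_cases hIJ : I ⊆ J
    · rwa [Set.inter_eq_left.2 hIJ]
    by_cases hJI : J ⊆ I
    · rwa [Set.inter_eq_right.2 hJI]
    obtain ⟨i, hiI, hiJ⟩ := Set.not_subset.1 hIJ
    obtain ⟨j, hjJ, hjI⟩ := Set.not_subset.1 hJI
    have hij : i ≠ j := by rintro rfl; exact hiJ hjJ
    have g1 := Subgroup.closure_mono (image_sub j I hjI) h1
    have g2 := Subgroup.closure_mono (image_sub i J hiJ) h2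
    rcases key i j hij g1 g2 with rfl | ⟨k, hki, hkj, rfl⟩
    · exact Subgroup.one_mem _
    · by_cases hkI : k ∈ I
      · by_cases hkJ : k ∈ J
        · exact Subgroup.subset_closure ⟨k, ⟨hkI, hkJ⟩, rfl⟩
        · exfalso
          have hsub : gen '' J ⊆ {gen j} := by
            rintro _ ⟨t, ht, rfl⟩
            have h1 : t ≠ k := by rintro rfl; exact hkJ ht
            have h2 : t ≠ i := by rintro rfl; exact hiJ ht
            have h3 : t = j := by omega
            rw [h3]; rfl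
          rcases closure_single (gen_sq j) (Subgroup.closure_mono hsub h2) with h | h
          · exact gen_ne_one k h
          · exact gen_injective k j hkj h
      · exfalso
        have hsub : gen '' I ⊆ {gen i} := by
          rintro _ ⟨t, ht, rfl⟩
          have h1 : t ≠ k := by rintro rfl; exact hkI ht
          have h2 : t ≠ j := by rintro rfl; exact hjI ht
          have h3 : t = i := by omega
          rw [h3]; rfl
        rcases closure_single (gen_sq i) (Subgroup.closure_mono hsub h1) with h | h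
        · exact gen_ne_one k h
        · exact gen_injective k i hki h
  · exact le_inf (Subgroup.closure_mono (Set.image_mono Set.inter_subset_left))
      (Subgroup.closure_mono (Set.image_mono Set.inter_subset_right))

/-- the generators in `G` -/
def rho (i : Fin 3) : G := ⟨gen i, gen_mem i⟩

lemma map_closure (I : Set (Fin 3)) :
    (Subgroup.closure (rho '' I)).map G.subtype = Subgroup.closure (gen '' I) := by
  rw [MonoidHom.map_closure, Set.image_image]
  rfl

end QSC

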