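import Pool.Agent.H334R4.QSC.Base

/-!
The string property and the intersection property of the triple `ga, gb, gc`.
-/

set_option autoImplicit false

namespace QSC

/-- two columns of the matrix of `g` -/
def fp (g : Mono) : (Fin 16 × ZMod 4) × (Fin 16 × ZMod 4) := ((g.σ 0, g.f 0), (g.σ 2, g.f 2))

/-- left multiplication by `g` on column pairs -/
def step (g : Mono) (t : (Fin 16 × ZMod 4) × (Fin 16 × ZMod 4)) :
    (Fin 16 × ZMod 4) × (Fin 16 × ZMod 4) :=
  ((g.σ t.1.1, t.1.2 + g.f t.1.1), (g.σ t.2.1, t.2.2 + g.f t.2.1))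

lemma fp_mul (g h : Mono) : fp (g * h) = step g (fp h) := rfl

/-- column pairs of the elements of the subgroup generated by `gb` and `gc` -/
def tab12 : List ((Fin 16 × ZMod 4) × (Fin 16 × ZMod 4)) :=
  [((0, 0), (2, 0)), ((0, 0), (10, 0)), ((3, 1), (1, 3)), ((3, 1), (6, 0)), ((4, 0), (6, 0)), ((4, 0), (14, 0)), ((7, 1), (2, 0)), ((7, 1), (5, 3)), ((9, 2), (12, 3)), ((9, 2), (14, 0)), ((11, 1), (1, 3)), ((11, 1), (12, 3)), ((13, 2), (8, 3)), ((13, 2), (10, 0)), ((15, 1), (5, 3)), ((15, 1), (8, 3))]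

/-- column pairs of the elements of the subgroup generated by `ga` and `gc` -/
def tab02 : List ((Fin 16 × ZMod 4) × (Fin 16 × ZMod 4)) :=
  [((0, 0), (2, 0)), ((2, 0), (0, 0)), ((4, 0), (6, 0)), ((6, 0), (4, 0))]

lemma one12 : fp 1 ∈ tab12 := by decide
lemma one02 : fp 1 ∈ tab02 := by decide
set_option maxRecDepth 100000 in
lemma stepb12 : ∀ t ∈ tab12, step gb t ∈ tab12 := by decide
set_option maxRecDepth 100000 in
lemma stepc12 : ∀ t ∈ tab12, step gc t ∈ tab12 := by decide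
set_option maxRecDepth 100000 in
lemma stepa02 : ∀ t ∈ tab02, step ga t ∈ tab02 := by decide
set_option maxRecDepth 100000 in
lemma stepc02 : ∀ t ∈ tab02, step gc t ∈ tab02 := by decide

lemma ab_pow : (ga * gb) ^ 8 = 1 := Mono.eq_of (by decide)
lemma bc_pow : (gb * gc) ^ 8 = 1 := Mono.eq_of (by decide)

lemma i1 : ∀ k : Fin 8, fp ((ga * gb) ^ (k : ℕ)) ∈ tab12 → k = 0 := by decide
lemma i2 : ∀ k : Fin 8, fp ((ga * gb) ^ (k : ℕ) * ga) ∈ tab12 → k = 7 := by decide
lemma i3 : ∀ k : Fin 8, fp ((ga * gb) ^ (k : ℕ)) ∈ tab02 → k = 0 := by decide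
lemma i4 : ∀ k : Fin 8, fp ((ga * gb) ^ (k : ℕ) * ga) ∈ tab02 → k = 0 := by decide
lemma i5 : ∀ k : Fin 8, fp ((gb * gc) ^ (k : ℕ)) ∈ tab02 → k = 0 := by decide
lemma i6 : ∀ k : Fin 8, fp ((gb * gc) ^ (k : ℕ) * gb) ∈ tab02 → k = 7 := by decide

/-- elements of a dihedral group generated by two involutions -/
lemma dihedral {G : Type} [Group G] {a b : G} (ha : a * a = 1) (hb : b * b = 1) {n : ℕ}
    (hn : 0 < n) (hab : (a * b) ^ n = 1) {x : G} (hx : x ∈ Subgroup.closure ({a, b} : Set G)) :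
    ∃ k : ℕ, k < n ∧ (x = (a * b) ^ k ∨ x = (a * b) ^ k * a) := by
  have hai : a⁻¹ = a := inv_eq_of_mul_eq_one_right ha
  have hbi : b⁻¹ = b := inv_eq_of_mul_eq_one_right hb
  -- existence of an integer exponent
  have key : ∃ k : ℤ, x = (a * b) ^ k ∨ x = (a * b) ^ k * a := by
    have hA : ∀ k : ℤ, a * (a * b) ^ k = (a * b) ^ (-k) * a := by
      intro k
      have h1 : a * (a * b) * a⁻¹ = (a * b)⁻¹ := by
        rw [hai, mul_inv_rev, hai, hbi, ← mul_assoc, ha, one_mul]
      have h2 : a * (a * b) ^ k * a⁻¹ = ((a * b)⁻¹) ^ k := by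
        rw [← h1, conj_zpow]
      rw [inv_zpow, ← zpow_neg] at h2
      rw [← h2, inv_mul_cancel_right]
    have hstep : ∀ y : G, (∃ k : ℤ, y = (a * b) ^ k ∨ y = (a * b) ^ k * a) →
        ∃ k : ℤ, a * y = (a * b) ^ k ∨ a * y = (a * b) ^ k * a := by
      rintro y ⟨k, rfl | rfl⟩
      · exact ⟨-k, Or.inr (hA k)⟩
      · exact ⟨-k, Or.inl (by rw [← mul_assoc, hA, mul_assoc, ha, mul_one])⟩
    have hbeq : b = a * (a * b) := by rw [← mul_assoc, ha, one_mul]
    have hstepb : ∀ y : G, (∃ k : ℤ, y = (a * b) ^ k ∨ y = (a * b) ^ k * a) →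
        ∃ k : ℤ, b * y = (a * b) ^ k ∨ b * y = (a * b) ^ k * a := by
      rintro y ⟨k, hk⟩
      have hb' : b * y = a * ((a * b) * y) := by
        conv_lhs => rw [hbeq]
        group
      rw [hb']
      apply hstep
      refine ⟨k + 1, ?_⟩
      rcases hk with rfl | rfl
      · left; rw [add_comm, zpow_add, zpow_one]
      · right; rw [add_comm, zpow_add, zpow_one]; group
    refine Subgroup.closure_induction_left (p := fun y _ => ∃ k : ℤ, y = (a * b) ^ k ∨
      y = (a * b) ^ k * a) ⟨0, Or.inl (by simp)⟩ ?_ ?_ hx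
    · intro y hy z _ hz
      rcases hy with rfl | hy
      · exact hstep z hz
      · rw [Set.mem_singleton_iff] at hy; subst hy; exact hstepb z hz
    · intro y hy z _ hz
      rcases hy with rfl | hy
      · rw [hai]; exact hstep z hz
      · rw [Set.mem_singleton_iff] at hy; subst hy; rw [hbi]; exact hstepb z hz
  obtain ⟨k, hk⟩ := key
  have hn' : (0 : ℤ) < n := by exact_mod_cast hn
  have e : (a * b) ^ k = (a * b) ^ (k % n).toNat := by
    have h1 : ((k % n).toNat : ℤ) = k % n := Int.toNat_of_nonneg (Int.emod_nonneg _ hn'.ne')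
    rw [← zpow_natCast, h1]
    conv_lhs => rw [← Int.emod_add_mul_ediv k n, zpow_add, zpow_mul, zpow_natCast, hab, one_zpow,
      mul_one]
  refine ⟨(k % n).toNat, ?_, ?_⟩
  · have h1 : ((k % n).toNat : ℤ) = k % n := Int.toNat_of_nonneg (Int.emod_nonneg _ hn'.ne')
    have := Int.emod_lt_of_pos k hn'
    omega
  · rw [← e]; exact hk

/-- an element of the subgroup generated by two elements has its column pair in a table that is
closed under the two generators -/
lemma fp_mem {a b : Mono} (ha : a * a = 1) (hb : b * b = 1)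
    {L : List ((Fin 16 × ZMod 4) × (Fin 16 × ZMod 4))} (h1 : fp 1 ∈ L)
    (h2 : ∀ t ∈ L, step a t ∈ L) (h3 : ∀ t ∈ L, step b t ∈ L) {x : Mono}
    (hx : x ∈ Subgroup.closure ({a, b} : Set Mono)) : fp x ∈ L := by
  have hai : a⁻¹ = a := inv_eq_of_mul_eq_one_right ha
  have hbi : b⁻¹ = b := inv_eq_of_mul_eq_one_right hb
  refine Subgroup.closure_induction_left (p := fun y _ => fp y ∈ L) h1 ?_ ?_ hx
  · intro y hy z _ hz
    rcases hy with rfl | hy
    · exact h2 _ hz
    · rw [Set.mem_singleton_iff] at hy; subst hy; exact h3 _ hz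
  · intro y hy z _ hz
    rcases hy with rfl | hy
    · rw [hai]; exact h2 _ hz
    · rw [Set.mem_singleton_iff] at hy; subst hy; rw [hbi]; exact h3 _ hz

lemma inter1 {x : Mono} (h1 : x ∈ Subgroup.closure ({ga, gb} : Set Mono))
    (h2 : x ∈ Subgroup.closure ({gb, gc} : Set Mono)) : x = 1 ∨ x = gb := by
  have hf := fp_mem gb_sq gc_sq one12 stepb12 stepc12 h2
  obtain ⟨k, hk, rfl | rfl⟩ := dihedral ga_sq gb_sq (by norm_num) ab_pow h1
  · have := i1 ⟨k, hk⟩ hf
    have hk0 : k = 0 := congrArg Fin.val this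
    subst hk0; left; simp
  · have := i2 ⟨k, hk⟩ hf
    have hk0 : k = 7 := congrArg Fin.val this
    subst hk0; right; exact Mono.eq_of (by decide)

lemma inter0 {x : Mono} (h1 : x ∈ Subgroup.closure ({ga, gb} : Set Mono))
    (h2 : x ∈ Subgroup.closure ({ga, gc} : Set Mono)) : x = 1 ∨ x = ga := by
  have hf := fp_mem ga_sq gc_sq one02 stepa02 stepc02 h2
  obtain ⟨k, hk, rfl | rfl⟩ := dihedral ga_sq gb_sq (by norm_num) ab_pow h1
  · have := i3 ⟨k, hk⟩ hf
    have hk0 : k = 0 := congrArg Fin.val this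
    subst hk0; left; simp
  · have := i4 ⟨k, hk⟩ hf
    have hk0 : k = 0 := congrArg Fin.val this
    subst hk0; right; simp

lemma inter2 {x : Mono} (h1 : x ∈ Subgroup.closure ({gb, gc} : Set Mono))
    (h2 : x ∈ Subgroup.closure ({ga, gc} : Set Mono)) : x = 1 ∨ x = gc := by
  have hf := fp_mem ga_sq gc_sq one02 stepa02 stepc02 h2
  obtain ⟨k, hk, rfl | rfl⟩ := dihedral gb_sq gc_sq (by norm_num) bc_pow h1
  · have := i5 ⟨k, hk⟩ hf
    have hk0 : k = 0 := congrArg Fin.val this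
    subst hk0; left; simp
  · have := i6 ⟨k, hk⟩ hf
    have hk0 : k = 7 := congrArg Fin.val this
    subst hk0; right; exact Mono.eq_of (by decide)

end QSC

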